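import Pool.Agent.H53.LD.Main

/-!
# The existence of Galois representations follows from the existence over one extension

Let `E` be a finite extension of `ℚ_l`, and `α` a system of Hecke polynomials of degree `n` over the
number field `K` with coefficients in `E`, with a determinant.  Let `F` be a finite Galois extension of
`K` such that all prime factors of `[F : K]` are larger than `l ^ (n ^ 2 [E : ℚ_l])`.  If there is an
irreducible representation attached to the base change of `α` to `F`, then there is one over `K`
attached to `α`, at the same places, including those which are ramified in `F`.

Known patching lemmas need infinitely many extensions, or families of extensions such that every place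
has a factor of degree one in one of them.

`F` may be taken to be cyclic over `K`, a layer of a cyclotomic `ℤ_q`-extension, without primes of norm
at most `X`.  So the existence for number fields without primes of norm at most `X` implies the
existence for all number fields.

Proof.  The degree `[F : K]` is prime to `n`, so the representation `ρ` has a unique extension `R` to
`Gal(K̄/K)` with the given determinant.  By uniqueness, `R` is isomorphic to its conjugates by the
automorphisms of the field of coefficients over `E`, so the characteristic polynomials of all `R(σ)`
have coefficients in `E`.  At a place `v` the eigenvalues of `R(Frob_v)` and the roots of the Hecke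
polynomial agree up to roots of unity of order dividing a power of `[F : K]`, and these lie in an
extension of `E` of degree at most `n ^ 2`.  But this does not contain roots of unity of prime order
`q > l ^ (n ^ 2 [E : ℚ_l])`.
-/

set_option autoImplicit false

namespace Pool.Agent.Results.MP_976e2b_nt.OneExtensionSuffices

open Pool.Agent.H53.LD
open Pool.Agent.W401.Cheb (GK)

theorem result (l : ℕ) [Fact l.Prime] (E : IntermediateField ℚ_[l] (PadicAlgCl l))
    [FiniteDimensional ℚ_[l] E] (n : ℕ) (hn : 0 < n) (K : Type) [Field K] [NumberField K] :
    -- one Galois extension of large degree suffices
    (∀ N : Subgroup (GK K), N.Normal → IsOpen (N : Set (GK K)) →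
      (∀ q : ℕ, q.Prime → q ∣ N.index → l ^ (n ^ 2 * Module.finrank ℚ_[l] E) < q) →
        Suffices E n N) ∧
    -- the layers of the cyclotomic `ℤ_q`-extension of `K`
    (∀ X q m : ℕ, q.Prime → X < q → l ^ (n ^ 2 * Module.finrank ℚ_[l] E) < q →
      X ^ (q - 1) ≤ q ^ (m + 1) →
        ∃ N : Subgroup (GK K), IsLayer q m N ∧ OpenCyclic N ∧ N.index ∣ q ^ m ∧ NoSmall X N ∧
          Suffices E n N) ∧
    -- so an extension without primes of norm at most `X` suffices
    ∀ X : ℕ, ∃ N : Subgroup (GK K), OpenCyclic N ∧ NoSmall X N ∧ Suffices E n N :=
  ⟨fun N hN hNo hbig => by
    have := hN
    exact suffices_of_large E n hNo hbig,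
  fun _ _ _ hq hX hbig hm => exists_suffices E n hn hq hX hbig hm,
  exists_noSmall E n K hn⟩

end Pool.Agent.Results.MP_976e2b_nt.OneExtensionSuffices
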