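import Pool.Agent.H53.DC.Four

/-!
# Which families of subextensions suffice for the existence of Galois representations

Reduction of the existence of the Galois representation attached to an eigenclass to the base
changes.  `K` is a number field, `L / K` a finite Galois extension with group `Γ`, and `𝓤` is a family
of subgroups of `Γ` whose conjugates cover `Γ`.  Suppose that the representation attached to the base
change exists over all the fields `L^U`, `U ∈ 𝓤`, and is irreducible over `L`.  Does it exist over `K`?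

The answer is given by a finite group: the kernel `Z` of `pr 𝓤 : Ext 𝓤 → Γ`, where `Ext 𝓤` is the
group with the generators `[g]` and the relations `[g][h] = [gh]` for `g`, `h` in a common member of
the family, and `[x][g][x]⁻¹ = [xgx⁻¹]`.  Descent holds for all systems of dimension `n`, over all `K`,
if and only if `n` is prime to the order of `Z`.
-/

set_option autoImplicit false

namespace Pool.Agent.Results.MP_976e2b_nt.WhichSubextensionsSuffice

open Pool.Agent.H53.DC
open Pool.Agent.W401.Cheb (GK)

theorem result :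
    (∀ (Γ : Type) [Group Γ] [Finite Γ] (𝓤 : Set (Subgroup Γ)), Covers 𝓤 →
      FiniteCentral 𝓤 ∧
      -- descent, if `n` is prime to the order of the kernel
      (∀ n : ℕ, (kerOrder 𝓤).Coprime n → AlwaysDescends 𝓤 n) ∧
      -- failure, if `n` is not prime to the order of the kernel
      (∀ n : ℕ, 0 < n → ¬ (kerOrder 𝓤).Coprime n → SometimesFails 𝓤 n)) ∧
    -- four quadratic extensions suffice
    (∀ (K : Type) [Field K] [NumberField K] (χ₁ χ₂ χ₃ : GK K →* ℤˣ), Independent χ₁ χ₂ χ₃ →
      FourSuffice χ₁ χ₂ χ₃) ∧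
    -- three covering quadratic extensions do not suffice for `n` even
    (∀ (Γ : Type) [Group Γ] [Finite Γ] (U₁ U₂ U₃ : Subgroup Γ), U₁.index = 2 → U₂.index = 2 →
      U₃.index = 2 → Covers ({U₁, U₂, U₃} : Set (Subgroup Γ)) →
      ∀ n : ℕ, 0 < n → Even n → SometimesFails ({U₁, U₂, U₃} : Set (Subgroup Γ)) n) := by
  refine ⟨?_, ?_, ?_⟩
  · intro Γ _ _ 𝓤 hcov
    refine ⟨⟨finite_ext hcov, pr_surjective, ker_le_center⟩, ?_, ?_⟩
    · intro n hn K _ _ π hπ hπo k _ _ _ _ _ _
      exact descends π hπ hπo hcov hn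
    · intro n hn hc
      obtain ⟨p, hp, h1, h2⟩ := Nat.Prime.not_coprime_iff_dvd.1 hc
      exact fails hcov hn hp h2 h1
  · intro K _ _ χ₁ χ₂ χ₃ h n k _ _ _ _ _ _
    exact four_descends χ₁ χ₂ χ₃ h.1 h.2.1 h.2.2.1 h.2.2.2
  · intro Γ _ _ U₁ U₂ U₃ h₁ h₂ h₃ hcov n hn he
    exact fails hcov hn Nat.prime_two he.two_dvd (two_dvd h₁ h₂ h₃ hcov)

end Pool.Agent.Results.MP_976e2b_nt.WhichSubextensionsSuffice
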